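import Pool.Agent.MP_513174_co.Trace

namespace Pool.Agent.Results.MP_513174_co.NotPermutation

open Pool.Agent.MP_513174_co

/-- For `G = Sp_6(ℂ)` there is a Hessenberg space `H` such that the character of the degree-two
piece of the left quotient of the spline ring of `H` is not a combination, with non-negative
integer coefficients, of coset characters `π_R` with `R` a subgroup of the group of signed
permutations; in particular not of those with `R` a reflection subgroup. -/
theorem result : ∃ H : HessenbergSpace 3, ∀ c : Subgroup (SignedPerm 3) →₀ ℕ,
    ∃ w : SignedPerm 3,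
      (leftRep H 2).character w ≠ c.sum fun R m => (m : ℂ) * (cosetChar R w : ℂ) := by
  refine ⟨H0, fun c => ⟨negW, fun h => ?_⟩⟩
  obtain ⟨m, hm, hc⟩ := character_negW
  rw [hc] at h
  have h2 : (m : ℂ) = ((c.sum fun R m => m * cosetChar R negW : ℕ) : ℂ) := by
    rw [h, Finsupp.sum, Finsupp.sum]
    push_cast
    rfl
  have h3 : m = ((c.sum fun R m => m * cosetChar R negW : ℕ) : ℤ) := by
    exact_mod_cast h2
  omega

end Pool.Agent.Results.MP_513174_co.NotPermutation
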